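import Pool.Agent.H500.ED.Stm
import Pool.Agent.H500.R2.Gal
import Pool.Graph.R_pool_sql_team_seeded_3997aac3.Q84.AR.Hecke
import Pool.Graph.R_pool_sql_team_seeded_3997aac3.Q84.AR.Frac

set_option autoImplicit false
set_option linter.unusedSectionVars false

/-!
# Project ED (helper500), part D5 (helper903): matching of characters
-/

namespace Pool.Agent.H903.ED.DIAG

open NumberField IsDedekindDomain Polynomial
open Pool.Agent.W401.Cheb (GK IsFrob)
open Pool.Agent.H500.HC (InRay QBar ZBar)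
open Pool.Agent.H500.TH (typB)
open Pool.Agent.Q92.AR (Dv Ray prin)
open Pool.Agent.H500.ED
open Pool.Agent.Q84.AR (dv dv_mul dv_prime dv_span dv_one)

section
variable {L : Type} [Field L] [NumberField L] {k : Type} [Field k]

/-- elements congruent to `1` modulo `l` have types congruent to `1` -/
theorem r_typB (r : ZBar →+* k) {l : ℕ} (hl : (l : k) = 0) (t : (L →+* QBar) → ℕ) {x : 𝓞 L}
    (hx : (l : 𝓞 L) ∣ x - 1) : r (typB t x) = 1 := by
  unfold typB
  rw [map_prod]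
  refine Finset.prod_eq_one fun σ _ => ?_
  obtain ⟨y, hy⟩ := hx
  have h1 : x = 1 + (l : 𝓞 L) * y := by rw [← hy]; ring
  rw [map_pow, h1, map_add, map_mul, map_one, map_natCast, map_add, map_mul, map_one, map_natCast,
    hl, zero_mul, add_zero, one_pow]

theorem coprime_of_dvd {A : ℕ} {a : 𝓞 L} (h : (A : 𝓞 L) ∣ a - 1) :
    IsCoprime (Ideal.span {a}) (Ideal.span {(A : 𝓞 L)}) := by
  rw [Ideal.isCoprime_span_singleton_iff]
  obtain ⟨z, hz⟩ := h
  exact ⟨1, -z, by linear_combination hz⟩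

theorem coprime_place {A : ℕ} {v : HeightOneSpectrum (𝓞 L)} :
    IsCoprime v.asIdeal (Ideal.span {(A : 𝓞 L)}) ↔ (A : 𝓞 L) ∉ v.asIdeal :=
  Pool.Agent.Q84.AR.cop_v A v

/-- a function on the places with values in `B`, extended to the divisors -/
noncomputable def ch {B : Type} [CommGroup B] (b : HeightOneSpectrum (𝓞 L) → B) :
    Dv L →+ Additive B :=
  Finsupp.liftAddHom fun v => (zmultiplesHom (Additive B)) (Additive.ofMul (b v))

theorem ch_single {B : Type} [CommGroup B] (b : HeightOneSpectrum (𝓞 L) → B)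
    (v : HeightOneSpectrum (𝓞 L)) : ch b (Finsupp.single v 1) = Additive.ofMul (b v) := by
  unfold ch
  rw [Finsupp.liftAddHom_apply_single, zmultiplesHom_apply, one_zsmul]

/-- the value of `ch b` at the divisor of an ideal -/
theorem ch_dv {B : Type} [CommGroup B] (b : HeightOneSpectrum (𝓞 L) → B) (u : B →* k)
    (f : Ideal (𝓞 L) →*₀ k) (A : ℕ)
    (h : ∀ v : HeightOneSpectrum (𝓞 L), (A : 𝓞 L) ∉ v.asIdeal → u (b v) = f v.asIdeal)
    (𝔞 : Ideal (𝓞 L)) : 𝔞 ≠ ⊥ → IsCoprime 𝔞 (Ideal.span {(A : 𝓞 L)}) →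
      u (ch b (dv 𝔞)).toMul = f 𝔞 := by
  induction 𝔞 using UniqueFactorizationMonoid.induction_on_prime with
  | h₁ => intro h0; exact absurd rfl h0
  | h₂ x hx =>
    intro _ _
    have h1 : x = 1 := by
      rw [Ideal.isUnit_iff] at hx
      rw [hx, Ideal.one_eq_top]
    rw [h1, dv_one, map_zero, map_one]
    exact map_one u
  | h₃ a p ha hp ih =>
    intro _ hc
    have h2 := IsCoprime.mul_left_iff.1 hc
    have h3 := ih ha h2.2
    let v : HeightOneSpectrum (𝓞 L) := ⟨p, Ideal.isPrime_of_prime hp, hp.ne_zero⟩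
    have h4 : (A : 𝓞 L) ∉ v.asIdeal := coprime_place.1 h2.1
    have h5 : dv p = Finsupp.single v 1 := dv_prime v
    rw [dv_mul hp.ne_zero ha, map_add, toMul_add, map_mul, h3, h5, ch_single, toMul_ofMul, h v h4,
      map_mul]

end

/-- one Hecke character modulo `l` gives a Galois character -/
theorem gal (hFLB : S_FLB) {L : Type} [Field L] [NumberField L] {N e l : ℕ} (hN : 2 ≤ N)
    (hl : l.Prime) {t : (L →+* QBar) → ℕ} {ψ : Ideal (𝓞 L) →*₀ ZBar} {k : Type} [Field k]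
    (r : ZBar →+* k) (hlk : (l : k) = 0) (hψ : IsHecke (N ^ e) N t ψ) :
    ∃ Θ : GK L →* kˣ, IsOpen (Θ.ker : Set (GK L)) ∧
      ∀ w : HeightOneSpectrum (𝓞 L), (N : 𝓞 L) ∉ w.asIdeal → (l : 𝓞 L) ∉ w.asIdeal →
        ∀ s, IsFrob w s → (Θ s : k) = r (ψ w.asIdeal) := by
  classical
  set A : ℕ := N ^ (e + 1) * l with hA
  have hA0 : 0 < A := Nat.mul_pos (pow_pos (by omega) _) hl.pos
  have hmem : ∀ w : HeightOneSpectrum (𝓞 L), (N : 𝓞 L) ∉ w.asIdeal → (l : 𝓞 L) ∉ w.asIdeal →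
      (A : 𝓞 L) ∉ w.asIdeal := by
    intro w h1 h2 h3
    rw [hA, Nat.cast_mul, Nat.cast_pow] at h3
    rcases w.isPrime.mem_or_mem h3 with h4 | h4
    · exact h1 (w.isPrime.mem_of_pow_mem _ h4)
    · exact h2 h4
  have hray : ∀ x : 𝓞 L, InRay A x → r (ψ (Ideal.span {x})) = 1 := by
    intro x hx
    have h1 : InRay (N ^ e) x := by
      refine ⟨hx.1, (Nat.cast_dvd_cast ?_).trans hx.2.1, hx.2.2⟩
      rw [hA, pow_succ, mul_assoc]
      exact Dvd.intro _ rfl
    rw [hψ.typ x h1]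
    refine r_typB r hlk t ((Nat.cast_dvd_cast ?_).trans hx.2.1)
    rw [hA]
    exact Dvd.intro_left _ rfl
  obtain ⟨h, R, hh, -, hcls⟩ := Pool.Agent.H500.HC.all_Cls L A hA0
  have hroot : ∀ 𝔞 : Ideal (𝓞 L), 𝔞 ≠ ⊥ → IsCoprime 𝔞 (Ideal.span {(A : 𝓞 L)}) →
      r (ψ 𝔞) ^ h = 1 := by
    intro 𝔞 h1 h2
    obtain ⟨x, hx, hxe⟩ := (hcls 𝔞 h1 h2).1
    rw [← map_pow, ← map_pow, hxe, hray x hx]
  have : NeZero h := ⟨hh.ne'⟩
  let b : HeightOneSpectrum (𝓞 L) → rootsOfUnity h k := fun v =>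
    if hv : (A : 𝓞 L) ∉ v.asIdeal then
      rootsOfUnity.mkOfPowEq (r (ψ v.asIdeal)) (hroot v.asIdeal v.ne_bot (coprime_place.2 hv))
    else 1
  let u : rootsOfUnity h k →* k := (Units.coeHom k).comp (Subgroup.subtype _)
  let f : Ideal (𝓞 L) →*₀ k := r.toMonoidWithZeroHom.comp ψ
  have hb : ∀ v : HeightOneSpectrum (𝓞 L), (A : 𝓞 L) ∉ v.asIdeal → u (b v) = f v.asIdeal := by
    intro v hv
    show ((b v : kˣ) : k) = r (ψ v.asIdeal)
    simp only [b, dif_pos hv]
    exact rootsOfUnity.coe_mkOfPowEq _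
  have hu : Function.Injective u := by
    intro x y hxy
    exact Subtype.ext (Units.ext hxy)
  have hc : ∀ x ∈ Ray L A, ch b (prin x) = 0 := by
    intro x hx
    obtain ⟨a, c, ha, hc, haM, hcM, hap, hcp, hac⟩ := Pool.Agent.Q84.AR.frac L A hA0.ne' x hx
    have ha' : (a : L) ≠ 0 := by exact_mod_cast ha
    have hc' : (c : L) ≠ 0 := by exact_mod_cast hc
    have key : ∀ z : 𝓞 L, ∀ hz' : (z : L) ≠ 0, InRay A z →
        ch b (prin (Units.mk0 (z : L) hz')) = 0 := by
      intro z hz' hz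
      have e1 : dv (Ideal.span {z}) = prin (Units.mk0 (z : L) hz') := dv_span _ rfl
      rw [← e1]
      have e2 := ch_dv b u f A hb (Ideal.span {z})
        (by rw [Ne, Ideal.span_singleton_eq_bot]; exact hz.1) (coprime_of_dvd hz.2.1)
      have e3 : f (Ideal.span {z}) = 1 := hray z hz
      rw [e3, ← map_one u] at e2
      exact congrArg Additive.ofMul (hu e2)
    have e3 : x = Units.mk0 (a : L) ha' / Units.mk0 (c : L) hc' := by
      rw [eq_div_iff_mul_eq']
      apply Units.ext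
      rw [Units.val_mul, Units.val_mk0, Units.val_mk0, hac]
    rw [e3, Pool.Agent.Q92.AR.prin_div, map_sub, key a ha' ⟨ha, haM, hap⟩,
      key c hc' ⟨hc, hcM, hcp⟩, sub_zero]
  obtain ⟨Θ, hΘ, -, hΘf⟩ := hFLB L A hA0 (rootsOfUnity h k) (ch b) hc
  refine ⟨(Subgroup.subtype _).comp Θ, ?_, fun w h1 h2 s hs => ?_⟩
  · have e : (((Subgroup.subtype (rootsOfUnity h k)).comp Θ).ker : Set (GK L)) =
        (Θ.ker : Set (GK L)) := by
      ext s
      rw [SetLike.mem_coe, SetLike.mem_coe, MonoidHom.mem_ker, MonoidHom.mem_ker,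
        MonoidHom.comp_apply, Subgroup.coe_subtype, OneMemClass.coe_eq_one]
    rw [e]
    exact hΘ
  · have e1 := hΘf w (hmem w h1 h2) s hs
    rw [ch_single] at e1
    have e2 : Θ s = b w := Additive.ofMul.injective e1
    have e3 := hb w (hmem w h1 h2)
    rw [← e2] at e3
    exact e3

theorem main : Pool.Agent.H500.ED.S_FLB → Pool.Agent.H500.ED.S_DIAG := by
  classical
  intro hFLB L _ _ N e l n t ψ k _ r δ hN hl hlN hlk hn hψ hδ heq
  choose Θ hΘo hΘ using fun i => gal hFLB hN hl r hlk (hψ i)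
  let Φ : GK L →* (Fin n → kˣ) × (Fin n → kˣ) := (MonoidHom.pi δ).prod (MonoidHom.pi Θ)
  have hker : IsOpen (Φ.ker : Set (GK L)) := by
    have e1 : (Φ.ker : Set (GK L)) = (⋂ i, ((δ i).ker : Set (GK L))) ∩
        ⋂ i, ((Θ i).ker : Set (GK L)) := by
      ext s
      simp only [SetLike.mem_coe, MonoidHom.mem_ker, Set.mem_inter_iff, Set.mem_iInter]
      constructor
      · intro h
        exact ⟨fun i => congrFun (congrArg Prod.fst h) i, fun i => congrFun (congrArg Prod.snd h) i⟩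
      · rintro ⟨h1, h2⟩
        exact Prod.ext (funext h1) (funext h2)
    rw [e1]
    exact (isOpen_iInter_of_finite hδ).inter (isOpen_iInter_of_finite hΘo)
  let f : Fin n → (Φ.range →* k) := fun i => (Units.coeHom k).comp
    ((Pi.evalMonoidHom (fun _ : Fin n => kˣ) i).comp ((MonoidHom.fst _ _).comp Φ.range.subtype))
  let g : Fin n → (Φ.range →* k) := fun i => (Units.coeHom k).comp
    ((Pi.evalMonoidHom (fun _ : Fin n => kˣ) i).comp ((MonoidHom.snd _ _).comp Φ.range.subtype))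
  have hA0 : 0 < N * l := Nat.mul_pos (by omega) hl.pos
  have hfg : ∀ x : Φ.range, ∏ i, (X - Polynomial.C (f i x)) = ∏ i, (X - Polynomial.C (g i x)) := by
    rintro ⟨_, s, rfl⟩
    obtain ⟨w, σ, hw, hσ, hσU⟩ := Pool.Agent.H500.R2.frob_ex Φ.ker inferInstance hker s hA0
    have e1 : Φ s = Φ σ := by
      rw [MonoidHom.mem_ker, map_mul, map_inv, inv_mul_eq_one] at hσU
      exact hσU
    have hw1 : (N : 𝓞 L) ∉ w.asIdeal := by
      intro h
      apply hw
      rw [Nat.cast_mul]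
      exact w.asIdeal.mul_mem_right _ h
    have hw2 : (l : 𝓞 L) ∉ w.asIdeal := by
      intro h
      apply hw
      rw [Nat.cast_mul]
      exact w.asIdeal.mul_mem_left _ h
    have e2 := heq w hw1 hw2 σ hσ
    have e3 : ∀ i, f i ⟨Φ s, s, rfl⟩ = (δ i σ : k) := by
      intro i
      show (((Φ s).1 i : kˣ) : k) = _
      rw [e1]
      rfl
    have e4 : ∀ i, g i ⟨Φ s, s, rfl⟩ = r (ψ i w.asIdeal) := by
      intro i
      show (((Φ s).2 i : kˣ) : k) = _
      rw [e1, ← hΘ i w hw1 hw2 σ hσ]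
      rfl
    simp only [e3, e4]
    exact e2
  have hp : ∀ p : ℕ, p.Prime → (p : k) = 0 → n < p := by
    intro p hp hpk
    by_contra hcon
    push Not at hcon
    apply hn
    obtain ⟨c, hc⟩ := (hp.dvd_factorial).2 hcon
    rw [hc, Nat.cast_mul, hpk, zero_mul]
  obtain ⟨π, hπ⟩ := Pool.Agent.H500.HC.all_Chars Φ.range k n f g hp hfg
  refine ⟨π, fun i w h1 h2 s hs => ?_⟩
  have e1 := DFunLike.congr_fun (hπ i) ⟨Φ s, s, rfl⟩
  rw [← hΘ (π i) w h1 h2 s hs]
  exact e1

end Pool.Agent.H903.ED.DIAG
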